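import Pool.Agent.H88.KP.Asym

/-!
# `K_{n,n}` in a cube of side `n^(4/5) (log n)^2`

For all large `n` the complete bipartite graph `K_{n,n}` has a three-dimensional grid drawing in
a cube of side at most `n^(4/5) (log n)^2`.
-/

namespace Pool.Agent.Results.MP_d5c87a_co.FourFifthsExponent

open Pool.Agent.H49.KNN

/-- For all large `n`: the least side length `m(n)` of a cube in which `K_{n,n}` can be drawn is
at most `n^(4/5) (log n)^2` (and `K_{n,n}` can be drawn in the cube of side `m(n)`). -/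
theorem result : ∃ n₀ : ℕ, ∀ n : ℕ, n₀ ≤ n →
    CanBeDrawn (Knn n) (sideLength n) (sideLength n) (sideLength n) ∧
      (sideLength n : ℝ) ≤ (n : ℝ) ^ (4 / 5 : ℝ) * (Real.log n) ^ 2 := by
  obtain ⟨n₀, hn₀⟩ := Filter.eventually_atTop.mp Pool.Agent.H88.KP.exists_drawing
  refine ⟨n₀, fun n hn => ?_⟩
  obtain ⟨m, hm1, hm2, hm3⟩ := hn₀ n hn
  have hmem : m ∈ {m : ℕ | 1 ≤ m ∧ CanBeDrawn (Knn n) m m m} := ⟨hm1, hm2⟩
  refine ⟨(Nat.sInf_mem ⟨m, hmem⟩).2, ?_⟩
  have h1 : sideLength n ≤ m := Nat.sInf_le hmem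
  have h2 : (sideLength n : ℝ) ≤ m := by exact_mod_cast h1
  exact h2.trans hm3

end Pool.Agent.Results.MP_d5c87a_co.FourFifthsExponent
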